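import Pool.Agent.H469R2.NK.Psi

open Finset

namespace Pool.Agent.H469R2.NK

lemma saw_natdiv (M m : ℕ) : saw ((M : ℝ) / m) = (M : ℝ) / m - ((M / m : ℕ) : ℝ) - 1 / 2 := by
  unfold saw
  rw [← Int.self_sub_floor, Int.floor_div_natCast, Int.floor_natCast]
  norm_cast

lemma ind_eq (M k m : ℕ) (hm : k < m) : (if (M + k) / m = M / m then (1 : ℝ) else 0) =
    1 - k / m + saw (((M + k : ℕ) : ℝ) / m) - saw ((M : ℝ) / m) := by
  rw [saw_natdiv, saw_natdiv]
  have hm0 : 0 < m := by omega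
  have h1 : (M + k) / m = M / m ∨ (M + k) / m = M / m + 1 := by
    have h2 : M / m ≤ (M + k) / m := Nat.div_le_div_right (by omega)
    have h3 : (M + k) / m < M / m + 2 := by
      rw [Nat.div_lt_iff_lt_mul hm0]
      have := Nat.lt_div_mul_add (a := M) hm0
      nlinarith
    omega
  have hm' : (m : ℝ) ≠ 0 := by positivity
  rcases h1 with h | h
  · rw [if_pos h, h]
    push_cast
    field_simp
    ring
  · rw [if_neg (by omega), h]
    push_cast
    field_simp
    ring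

/-- antiderivative of `1 - k/x` -/
noncomputable def G (k : ℕ) (x : ℝ) : ℝ := x - k * Real.log x

lemma G_bounds (k : ℕ) {x y : ℝ} (hx : 0 < x) (hxy : x ≤ y) :
    (y - x) * (1 - k / x) ≤ G k y - G k x ∧ G k y - G k x ≤ (y - x) * (1 - k / y) := by
  have hy : 0 < y := hx.trans_le hxy
  have hk : (0 : ℝ) ≤ k := Nat.cast_nonneg k
  have e1 : G k y - G k x = (y - x) - k * Real.log (y / x) := by
    unfold G
    rw [Real.log_div hy.ne' hx.ne']
    ring
  have h1 : Real.log (y / x) ≤ y / x - 1 := Real.log_le_sub_one_of_pos (by positivity)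
  have h2 : 1 - (y / x)⁻¹ ≤ Real.log (y / x) := Real.one_sub_inv_le_log_of_pos (by positivity)
  rw [e1]
  constructor
  · have : (y - x) * (1 - k / x) = (y - x) - k * (y / x - 1) := by field_simp
    rw [this]
    nlinarith
  · have : (y - x) * (1 - k / y) = (y - x) - k * (1 - (y / x)⁻¹) := by field_simp
    rw [this]
    nlinarith

lemma sum_lower (k d A : ℕ) (hd : 1 ≤ d) (hA : 1 ≤ A) (B : ℕ) (hB : A ≤ B) :
    G k (d * B) - G k (d * A) ≤ d * ∑ m ∈ Ico (A + 1) (B + 1), (1 - (k : ℝ) / (d * m : ℕ)) := by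
  induction B, hB using Nat.le_induction with
  | base => simp
  | succ B hB ih =>
    rw [sum_Ico_succ_top (by omega), mul_add]
    have hd' : (1 : ℝ) ≤ d := by exact_mod_cast hd
    have hB' : (1 : ℝ) ≤ B := by exact_mod_cast hA.trans hB
    have h := (G_bounds k (x := d * B) (y := d * (B + 1)) (by positivity) (by gcongr; linarith)).2
    have e1 : ((d : ℝ) * (B + 1) - d * B) * (1 - k / (d * (B + 1))) =
      d * (1 - (k : ℝ) / ((d * (B + 1) : ℕ) : ℝ)) := by push_cast; ring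
    rw [e1] at h
    push_cast at h ih ⊢
    linarith

lemma sum_upper (k d A : ℕ) (hd : 1 ≤ d) (B : ℕ) (hB : A ≤ B) :
    d * ∑ m ∈ Ico (A + 1) (B + 1), (1 - (k : ℝ) / (d * m : ℕ)) ≤ G k (d * (B + 1)) - G k (d * (A + 1)) := by
  induction B, hB using Nat.le_induction with
  | base => simp
  | succ B hB ih =>
    rw [sum_Ico_succ_top (by omega), mul_add]
    have hd' : (1 : ℝ) ≤ d := by exact_mod_cast hd
    have h := (G_bounds k (x := d * (B + 1)) (y := d * (B + 1 + 1)) (by positivity) (by gcongr; linarith)).1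
    have e1 : ((d : ℝ) * (B + 1 + 1) - d * (B + 1)) * (1 - k / (d * (B + 1))) =
      d * (1 - (k : ℝ) / ((d * (B + 1) : ℕ) : ℝ)) := by push_cast; ring
    rw [e1] at h
    push_cast at h ih ⊢
    linarith

/-- the main term -/
noncomputable def XX (k U : ℕ) : ℝ := G k U - G k k

lemma XX_le (k U J : ℕ) (hk : 1 ≤ k) (hJ : 1 ≤ J) (hU : U = k + k / J) : XX k U ≤ k / (J : ℝ) ^ 2 := by
  have hk' : (1 : ℝ) ≤ k := by exact_mod_cast hk
  have hJ' : (1 : ℝ) ≤ J := by exact_mod_cast hJ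
  have h1 : ((k / J : ℕ) : ℝ) ≤ k / J := Nat.cast_div_le
  have h0 : (0 : ℝ) ≤ ((k / J : ℕ) : ℝ) := Nat.cast_nonneg _
  have hU' : (U : ℝ) = k + ((k / J : ℕ) : ℝ) := by rw [hU]; push_cast; ring
  have h := (G_bounds k (x := k) (y := U) (by positivity) (by rw [hU']; linarith)).2
  unfold XX
  refine h.trans ?_
  have hU0 : (0 : ℝ) < U := by rw [hU']; linarith
  have e1 : ((U : ℝ) - k) * (1 - k / U) = (((k / J : ℕ) : ℝ)) ^ 2 / U := by
    rw [hU']; field_simp; ring
  rw [e1]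
  calc (((k / J : ℕ) : ℝ)) ^ 2 / U ≤ (k / J) ^ 2 / k := by
        gcongr
        rw [hU]; exact Nat.le_add_right _ _
    _ = k / (J : ℝ) ^ 2 := by field_simp

lemma XX_nonneg (k U : ℕ) (hk : 1 ≤ k) (hU : k ≤ U) : 0 ≤ XX k U := by
  have hk' : (1 : ℝ) ≤ k := by exact_mod_cast hk
  have h := (G_bounds k (x := k) (y := U) (by positivity) (by exact_mod_cast hU)).1
  have : (1 - (k : ℝ) / k) = 0 := by rw [div_self (by positivity)]; ring
  rw [this, mul_zero] at h
  exact h

lemma main_term (k d U : ℕ) (hd : 1 ≤ d) (hdk : d ≤ k) (hU : k ≤ U) :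
    |∑ m ∈ Ico (k / d + 1) (U / d + 1), (1 - (k : ℝ) / (d * m : ℕ)) - XX k U / d| ≤ 2 := by
  set A := k / d with hA
  set B := U / d with hB
  have hA1 : 1 ≤ A := (Nat.one_le_div_iff (by omega)).mpr hdk
  have hAB : A ≤ B := Nat.div_le_div_right hU
  have hd' : (1 : ℝ) ≤ d := by exact_mod_cast hd
  have hA' : (1 : ℝ) ≤ A := by exact_mod_cast hA1
  have hk' : (1 : ℝ) ≤ k := by exact_mod_cast hd.trans hdk
  have hB' : (1 : ℝ) ≤ B := by exact_mod_cast hA1.trans hAB
  have hUr : (k : ℝ) ≤ U := by exact_mod_cast hU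
  have dA1 : (d : ℝ) * A ≤ k := by exact_mod_cast Nat.mul_div_le k d
  have dA2 : (k : ℝ) ≤ d * (A + 1) := by exact_mod_cast (Nat.lt_mul_div_succ k (by omega : 0 < d)).le
  have dB1 : (d : ℝ) * B ≤ U := by exact_mod_cast Nat.mul_div_le U d
  have dB2 : (U : ℝ) ≤ d * (B + 1) := by exact_mod_cast (Nat.lt_mul_div_succ U (by omega : 0 < d)).le
  have hlow := sum_lower k d A hd hA1 B hAB
  have hupp := sum_upper k d A hd B hAB
  set S := ∑ m ∈ Ico (A + 1) (B + 1), (1 - (k : ℝ) / (d * m : ℕ)) with hS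
  -- lower
  have l1 : G k U - G k (d * B) ≤ d := by
    have h := (G_bounds k (x := d * B) (y := U) (by positivity) dB1).2
    refine h.trans ?_
    have hU0 : (0 : ℝ) < U := by linarith
    have h2 : (1 - (k : ℝ) / U) ≤ 1 := by
      have : 0 ≤ (k : ℝ) / U := by positivity
      linarith
    have h3 : 0 ≤ (U : ℝ) - d * B := by linarith
    nlinarith
  have l2 : G k (d * A) - G k k ≤ d := by
    have h := (G_bounds k (x := d * A) (y := k) (by positivity) dA1).1
    have h2 : (k - d * A : ℝ) * (1 - k / (d * A)) = -((k - d * A) ^ 2 / (d * A)) := by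
      field_simp; ring
    rw [h2] at h
    have h3 : ((k : ℝ) - d * A) ^ 2 / (d * A) ≤ d := by
      rw [div_le_iff₀ (by positivity)]
      have h4 : 0 ≤ (k : ℝ) - d * A := by linarith
      have h5 : (k : ℝ) - d * A ≤ d := by linarith
      calc ((k : ℝ) - d * A) ^ 2 ≤ (d : ℝ) ^ 2 := by gcongr
        _ = (d : ℝ) * (d * 1) := by ring
        _ ≤ (d : ℝ) * (d * A) := by gcongr
    linarith
  have u1 : G k (d * (B + 1)) - G k U ≤ d := by
    have h := (G_bounds k (x := U) (y := d * (B + 1)) (by linarith) dB2).2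
    refine h.trans ?_
    have h2 : (1 - (k : ℝ) / (d * (B + 1))) ≤ 1 := by
      have : 0 ≤ (k : ℝ) / (d * (B + 1)) := by positivity
      linarith
    have h3 : 0 ≤ (d : ℝ) * (B + 1) - U := by linarith
    nlinarith
  have u2 : G k k ≤ G k (d * (A + 1)) := by
    have h := (G_bounds k (x := k) (y := d * (A + 1)) (by linarith) dA2).1
    have : (1 - (k : ℝ) / k) = 0 := by rw [div_self (by positivity)]; ring
    rw [this, mul_zero] at h
    linarith
  have hd0 : (0 : ℝ) < d := by linarith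
  have key : |d * S - XX k U| ≤ 2 * d := by
    unfold XX
    rw [abs_le]
    constructor <;> linarith
  have e2 : S - XX k U / d = (d * S - XX k U) / d := by field_simp
  rw [e2, abs_div, abs_of_pos hd0, div_le_iff₀ hd0]
  exact key

/-- multiples of `d` in the exceptional set -/
lemma card_mult (k d U M : ℕ) (hd : 1 ≤ d) :
    (((Ico (k + 1) (U + 1)).filter (fun m => (M + k) / m = M / m ∧ d ∣ m)).card : ℝ) =
      ∑ m ∈ Ico (k / d + 1) (U / d + 1), (if (M + k) / (d * m) = M / (d * m) then (1 : ℝ) else 0) := by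
  rw [← sum_filter, sum_const, nsmul_eq_mul, mul_one]
  congr 1
  symm
  apply card_bij (fun m _ => d * m)
  · intro m hm
    rw [mem_filter, mem_Ico] at hm ⊢
    refine ⟨⟨?_, ?_⟩, hm.2, dvd_mul_right _ _⟩
    · have := (Nat.div_lt_iff_lt_mul (by omega : 0 < d)).mp (show k / d < m by omega)
      rw [mul_comm]; omega
    · have := (Nat.le_div_iff_mul_le (by omega : 0 < d)).mp (show m ≤ U / d by omega)
      rw [mul_comm]; omega
  · intro a _ b _ hab
    exact Nat.eq_of_mul_eq_mul_left (by omega) hab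
  · intro b hb
    rw [mem_filter, mem_Ico] at hb
    obtain ⟨⟨h1, h2⟩, h3, c, rfl⟩ := hb
    refine ⟨c, ?_, rfl⟩
    rw [mem_filter, mem_Ico]
    refine ⟨⟨?_, ?_⟩, h3⟩
    · have := (Nat.div_lt_iff_lt_mul (by omega : 0 < d)).mpr (show k < c * d by rw [mul_comm]; omega)
      omega
    · have := (Nat.le_div_iff_mul_le (by omega : 0 < d)).mpr (show c * d ≤ U by rw [mul_comm]; omega)
      omega

lemma card_mult_est (k d U M : ℕ) (hd : 1 ≤ d) (hdk : d ≤ k) (hU : k ≤ U) {E : ℝ}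
    (h1 : |∑ n ∈ range (U / d - k / d), saw ((((M + k : ℕ) : ℝ) / d) / ((k / d + 1 + n : ℕ) : ℝ))| ≤ E)
    (h2 : |∑ n ∈ range (U / d - k / d), saw (((M : ℝ) / d) / ((k / d + 1 + n : ℕ) : ℝ))| ≤ E) :
    |(((Ico (k + 1) (U + 1)).filter (fun m => (M + k) / m = M / m ∧ d ∣ m)).card : ℝ) - XX k U / d| ≤ 2 + 2 * E := by
  rw [card_mult k d U M hd]
  have e1 : ∀ m ∈ Ico (k / d + 1) (U / d + 1), (if (M + k) / (d * m) = M / (d * m) then (1 : ℝ) else 0) =
      (1 - (k : ℝ) / (d * m : ℕ)) + saw ((((M + k : ℕ) : ℝ) / d) / (m : ℝ)) - saw (((M : ℝ) / d) / (m : ℝ)) := by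
    intro m hm
    rw [mem_Ico] at hm
    have h3 := (Nat.div_lt_iff_lt_mul (by omega : 0 < d)).mp (show k / d < m by omega)
    rw [ind_eq M k (d * m) (by rw [mul_comm]; exact h3), div_div, div_div]
    push_cast
    ring
  rw [sum_congr rfl e1, sum_sub_distrib, sum_add_distrib]
  have e2 : ∀ Y : ℝ, ∑ m ∈ Ico (k / d + 1) (U / d + 1), saw (Y / (m : ℝ)) =
      ∑ n ∈ range (U / d - k / d), saw (Y / ((k / d + 1 + n : ℕ) : ℝ)) := by
    intro Y
    rw [sum_Ico_eq_sum_range]
    congr 1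
    congr 1; omega
  rw [e2, e2]
  have h3 := main_term k d U hd hdk hU
  rw [abs_le] at *
  constructor <;> linarith [h1.1, h1.2, h2.1, h2.2, h3.1, h3.2]

end Pool.Agent.H469R2.NK
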