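import Pool.Agent.Helper601.BT

open Finset Filter Topology

namespace Pool.Agent.H469R2.NK

theorem mid_M : ∃ C₂ : ℝ, 0 < C₂ ∧ ∀ J : ℕ, 8 ≤ J → ∀ᶠ k : ℕ in atTop, ∀ M : ℕ,
    J * k ≤ M → (M : ℝ) ≤ (k : ℝ) ^ (11 / 10 : ℝ) →
    ((((Ico (k + 1) (k + k / J + 1)).filter (fun p => p.Prime ∧ (M + k) / p = M / p)).card : ℕ) : ℝ) ≤
      C₂ / (J : ℝ) ^ 2 * (k / Real.log k) := by
  classical
  obtain ⟨C, hC, hBT⟩ := Helper601.brun_titchmarsh
  refine ⟨42 * C, by positivity, ?_⟩
  intro J hJ
  have hJ' : (8 : ℝ) ≤ J := by exact_mod_cast hJ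
  have ev1 : ∀ᶠ k : ℕ in atTop, (2 * J : ℝ) ≤ (k : ℝ) ^ (1 / 10 : ℝ) := by
    have := (tendsto_rpow_atTop (show (0 : ℝ) < 1 / 10 by norm_num)).comp
      (tendsto_natCast_atTop_atTop (R := ℝ))
    exact this.eventually_ge_atTop _
  filter_upwards [ev1, eventually_ge_atTop 2] with k hk1 hk2 M hM1 hM2
  have hk2' : (2 : ℝ) ≤ k := by exact_mod_cast hk2
  have hkpos : (0 : ℝ) < k := by linarith
  have hk1' : (1 : ℝ) ≤ k := by linarith
  set U := k + k / J with hU
  have hUk : k ≤ U := Nat.le_add_right _ _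
  have hkJ : ((k / J : ℕ) : ℝ) ≤ k / J := Nat.cast_div_le
  have hU' : (U : ℝ) ≤ k + k / J := by rw [hU]; push_cast; linarith
  have hU2 : 8 * U ≤ 9 * k := by
    have h1 : k / J ≤ k / 8 := Nat.div_le_div_left hJ (by norm_num)
    omega
  have hMr : (J : ℝ) * k ≤ M := by exact_mod_cast hM1
  have hMpos : (0 : ℝ) < M := lt_of_lt_of_le (by positivity) hMr
  have hM0 : 0 < M := by exact_mod_cast hMpos
  -- x = k^2/(J M)
  set x : ℝ := (k : ℝ) ^ 2 / (J * M) with hx
  have hxpos : 0 < x := by positivity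
  have hxlow : 2 * (k : ℝ) ^ (8 / 10 : ℝ) ≤ x := by
    rw [hx, le_div_iff₀ (by positivity)]
    calc 2 * (k : ℝ) ^ (8 / 10 : ℝ) * (J * M) ≤ 2 * (k : ℝ) ^ (8 / 10 : ℝ) * (J * (k : ℝ) ^ (11 / 10 : ℝ)) := by gcongr
      _ = (2 * J) * ((k : ℝ) ^ (8 / 10 : ℝ) * (k : ℝ) ^ (11 / 10 : ℝ)) := by ring
      _ ≤ (k : ℝ) ^ (1 / 10 : ℝ) * ((k : ℝ) ^ (8 / 10 : ℝ) * (k : ℝ) ^ (11 / 10 : ℝ)) := by gcongr
      _ = (k : ℝ) ^ 2 := by
          rw [← Real.rpow_add hkpos, ← Real.rpow_add hkpos, ← Real.rpow_natCast]; norm_num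
  have hk8 : 1 ≤ (k : ℝ) ^ (8 / 10 : ℝ) := Real.one_le_rpow hk1' (by norm_num)
  set Λ : ℕ := ⌊11 * x⌋₊ with hΛ
  have hΛle : (Λ : ℝ) ≤ 11 * x := Nat.floor_le (by positivity)
  have hΛlt : 11 * x < Λ + 1 := Nat.lt_floor_add_one _
  have hΛlow : (k : ℝ) ^ (8 / 10 : ℝ) ≤ Λ := by linarith
  have hΛ2 : 2 ≤ Λ := by
    have : (2 : ℝ) ≤ Λ := by linarith
    exact_mod_cast this
  set j0 := M / U with hj0
  set j1 := M / k with hj1
  have hUpos : 0 < U := by omega
  have hUposr : (0 : ℝ) < U := by exact_mod_cast hUpos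
  have hj0M : M < (j0 + 1) * U := by rw [mul_comm]; exact Nat.lt_mul_div_succ M hUpos
  have hj0Mr : (M : ℝ) < (j0 + 1) * U := by exact_mod_cast hj0M
  have hU2r : 8 * (U : ℝ) ≤ 9 * k := by exact_mod_cast hU2
  have hj0low : (M : ℝ) / (2 * k) ≤ j0 := by
    rw [div_le_iff₀ (by positivity)]
    have h1 : (M : ℝ) < (j0 + 1) * (9 / 8 * k) := by
      refine hj0Mr.trans_le ?_
      gcongr
      linarith
    have h2 : 8 * (k : ℝ) ≤ M := by nlinarith
    nlinarith
  have hj0pos : (0 : ℝ) < j0 := lt_of_lt_of_le (by positivity) hj0low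
  -- each j
  have hj : ∀ j, j0 ≤ j → (((Ico (k + 1) (U + 1)).filter
      (fun p => p.Prime ∧ (M + k) / p = M / p ∧ M / p = j)).card : ℝ) ≤ C * (11 * x) / (8 / 10 * Real.log k) := by
    intro j hjj
    have hjj' : (j0 : ℝ) ≤ j := by exact_mod_cast hjj
    have hjpos : (0 : ℝ) < j := hj0pos.trans_le hjj'
    have hjpos' : 0 < j := by exact_mod_cast hjpos
    set a := (M + k) / (j + 1) + 1 with ha
    have hsub : ((Ico (k + 1) (U + 1)).filter (fun p => p.Prime ∧ (M + k) / p = M / p ∧ M / p = j)).card ≤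
        ((range Λ).filter (fun i => (a + i * 1).Prime)).card := by
      apply card_le_card_of_injOn (fun p => p - a)
      · intro p hp
        simp only [coe_filter, Set.mem_ofPred_eq, mem_Ico] at hp
        obtain ⟨⟨hp1, hp2⟩, hpp, hp3, hp4⟩ := hp
        have hp0 : 0 < p := hpp.pos
        have h1 : j * p ≤ M := by rw [← hp4]; exact Nat.div_mul_le_self M p
        have h2 : M + k < (j + 1) * p := by
          have := Nat.lt_mul_div_succ (M + k) hp0
          rw [hp3, hp4] at this
          rw [mul_comm]; exact this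
        have h3 : a ≤ p := by
          have : (M + k) / (j + 1) < p := (Nat.div_lt_iff_lt_mul (by omega)).mpr (by rw [mul_comm]; exact h2)
          omega
        have h4 : p - a < Λ := by
          -- real estimate
          have h1r : (j : ℝ) * p ≤ M := by exact_mod_cast h1
          have har : ((M : ℝ) + k) / (j + 1) < a := by
            rw [div_lt_iff₀ (by positivity)]
            have := Nat.lt_mul_div_succ (M + k) (by omega : 0 < j + 1)
            have h5 : M + k < a * (j + 1) := by rw [ha, mul_comm]; exact this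
            exact_mod_cast h5
          have hpr : (p : ℝ) ≤ M / j := by rw [le_div_iff₀ hjpos]; linarith
          have e1 : (M : ℝ) / j - (M + k) / (j + 1) = (M - j * k) / (j * (j + 1)) := by
            field_simp; ring
          have h6 : (M : ℝ) - j * k ≤ j * (k / J) + U := by
            have h7 : (M : ℝ) < (j + 1) * U := by
              refine hj0Mr.trans_le ?_
              gcongr
            have h8 : (j : ℝ) * U ≤ j * (k + k / J) := by gcongr
            linarith
          have h9 : (M : ℝ) / (2 * k) ≤ j := hj0low.trans hjj'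
          have h10 : ((M : ℝ) - j * k) / (j * (j + 1)) ≤ 10 * x := by
            rw [div_le_iff₀ (by positivity)]
            have hq : k / (J : ℝ) = x * (M / k) := by rw [hx]; field_simp
            have h11 : (M : ℝ) / k ≤ 2 * j := by
              have : (M : ℝ) / k = 2 * (M / (2 * k)) := by field_simp
              rw [this]; linarith
            have h12 : (J : ℝ) ≤ M / k := by rw [le_div_iff₀ hkpos]; exact hMr
            have h13 : (k : ℝ) = x * (M / k) * J := by rw [← hq]; field_simp
            have h14 : (k : ℝ) / J ≤ 2 * x * j := by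
              rw [hq]
              calc x * (M / k) ≤ x * (2 * j) := by gcongr
                _ = _ := by ring
            have h15 : (U : ℝ) ≤ 8 * x * j * j := by
              have h16 : (U : ℝ) ≤ 2 * k := by linarith
              have h17 : (k : ℝ) ≤ x * (2 * j) * (2 * j) := by
                calc (k : ℝ) = x * (M / k) * J := h13
                  _ ≤ x * (2 * j) * (2 * j) := by
                    gcongr
                    exact h12.trans h11
              linarith
            calc (M : ℝ) - j * k ≤ j * (k / J) + U := h6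
              _ ≤ j * (2 * x * j) + 8 * x * j * j := by gcongr
              _ = 10 * x * (j * j) := by ring
              _ ≤ 10 * x * (j * (j + 1)) := by gcongr; linarith
          have h5 : (p : ℝ) - a < Λ := by
            have : (p : ℝ) - a < 10 * x := by linarith
            linarith
          have h6' : (p : ℝ) < Λ + a := by linarith
          have : p < Λ + a := by exact_mod_cast h6'
          omega
        simp only [coe_filter, Set.mem_ofPred_eq, mem_range]
        refine ⟨h4, ?_⟩
        rw [mul_one, Nat.add_sub_cancel' h3]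
        exact hpp
      · intro p hp q hq hpq
        simp only [coe_filter, Set.mem_ofPred_eq, mem_Ico] at hp hq
        have ha' : ∀ p : ℕ, (M + k) / p = M / p → M / p = j → 0 < p → a ≤ p := by
          intro p h3 h4 hp0
          have h2 : M + k < (j + 1) * p := by
            have := Nat.lt_mul_div_succ (M + k) hp0
            rw [h3, h4] at this
            rw [mul_comm]; exact this
          have : (M + k) / (j + 1) < p := (Nat.div_lt_iff_lt_mul (by omega)).mpr (by rw [mul_comm]; exact h2)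
          omega
        have h1 := ha' p hp.2.2.1 hp.2.2.2 hp.2.1.pos
        have h2 := ha' q hq.2.2.1 hq.2.2.2 hq.2.1.pos
        simp only at hpq
        omega
    have hb := hBT a 1 Λ hΛ2 (Or.inl rfl)
    have hlogΛ : 8 / 10 * Real.log k ≤ Real.log Λ := by
      rw [← Real.log_rpow hkpos]
      exact Real.log_le_log (by positivity) hΛlow
    have hlogk : 0 < Real.log k := Real.log_pos (by linarith)
    calc _ ≤ (((range Λ).filter (fun i => (a + i * 1).Prime)).card : ℝ) := by exact_mod_cast hsub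
      _ ≤ C * Λ / Real.log Λ := hb
      _ ≤ C * (11 * x) / (8 / 10 * Real.log k) := by gcongr
  -- union over j
  have hcover : (Ico (k + 1) (U + 1)).filter (fun p => p.Prime ∧ (M + k) / p = M / p) ⊆
      (Icc j0 j1).biUnion (fun j => (Ico (k + 1) (U + 1)).filter
        (fun p => p.Prime ∧ (M + k) / p = M / p ∧ M / p = j)) := by
    intro p hp
    rw [mem_filter, mem_Ico] at hp
    rw [mem_biUnion]
    refine ⟨M / p, ?_, ?_⟩
    · rw [mem_Icc]
      exact ⟨Nat.div_le_div_left (by omega) hp.2.1.pos, Nat.div_le_div_left (by omega) (by omega)⟩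
    · rw [mem_filter, mem_Ico]
      exact ⟨hp.1, hp.2.1, hp.2.2, rfl⟩
  have hlogk : 0 < Real.log k := Real.log_pos (by linarith)
  have hcount : (((Icc j0 j1).card : ℕ) : ℝ) ≤ 3 * (M / k) / J := by
    rw [Nat.card_Icc]
    have h1 : j0 ≤ j1 := Nat.div_le_div_left hUk (by omega)
    rw [Nat.cast_sub (by omega)]
    push_cast
    have h2 : (j1 : ℝ) ≤ M / k := Nat.cast_div_le
    have h3 : (M : ℝ) / U < j0 + 1 := by rw [div_lt_iff₀ hUposr]; exact hj0Mr
    have h4 : (M : ℝ) / k - M / U ≤ M / k / J := by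
      have e1 : (M : ℝ) / k - M / U = M * (U - k) / (k * U) := by field_simp
      rw [e1, div_div, div_le_div_iff₀ (by positivity) (by positivity)]
      have h5 : (U : ℝ) - k ≤ k / J := by linarith
      have h6 : (k : ℝ) ≤ U := by exact_mod_cast hUk
      calc (M : ℝ) * (U - k) * (k * J) ≤ M * (k / J) * (k * J) := by gcongr
        _ = M * (k * k) := by field_simp
        _ ≤ M * (k * U) := by gcongr
    have h7 : (1 : ℝ) ≤ M / k / J := by
      rw [div_div, le_div_iff₀ (by positivity)]; linarith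
    have e2 : 3 * ((M : ℝ) / k) / J = 3 * (M / k / J) := by ring
    rw [e2]
    linarith
  calc ((((Ico (k + 1) (U + 1)).filter (fun p => p.Prime ∧ (M + k) / p = M / p)).card : ℕ) : ℝ)
      ≤ (((Icc j0 j1).biUnion (fun j => (Ico (k + 1) (U + 1)).filter
        (fun p => p.Prime ∧ (M + k) / p = M / p ∧ M / p = j))).card : ℝ) := by exact_mod_cast card_le_card hcover
    _ ≤ ((∑ j ∈ Icc j0 j1, ((Ico (k + 1) (U + 1)).filter
        (fun p => p.Prime ∧ (M + k) / p = M / p ∧ M / p = j)).card : ℕ) : ℝ) := by exact_mod_cast card_biUnion_le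
    _ = ∑ j ∈ Icc j0 j1, (((Ico (k + 1) (U + 1)).filter
        (fun p => p.Prime ∧ (M + k) / p = M / p ∧ M / p = j)).card : ℝ) := by push_cast; rfl
    _ ≤ ∑ j ∈ Icc j0 j1, C * (11 * x) / (8 / 10 * Real.log k) :=
        sum_le_sum fun j hj' => hj j (mem_Icc.mp hj').1
    _ = ((Icc j0 j1).card : ℝ) * (C * (11 * x) / (8 / 10 * Real.log k)) := by rw [sum_const, nsmul_eq_mul]
    _ ≤ (3 * (M / k) / J) * (C * (11 * x) / (8 / 10 * Real.log k)) := by gcongr
    _ = (165 / 4) * C / (J : ℝ) ^ 2 * (k / Real.log k) := by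
        rw [hx]; field_simp; ring
    _ ≤ 42 * C / (J : ℝ) ^ 2 * (k / Real.log k) := by
        gcongr
        norm_num

end Pool.Agent.H469R2.NK
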