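import Pool.Agent.Helper601.PNT

open Finset Filter Topology

namespace Pool.Agent.H469R2.NK

/-- PNT: primes in `(x, (1+ε)x]`. -/
lemma pnt_short (ε : ℝ) (hε : 0 < ε) : ∀ᶠ x : ℝ in atTop,
    ε / 2 * (x / Real.log x) ≤ (Nat.primeCounting ⌊(1 + ε) * x⌋₊ : ℝ) - Nat.primeCounting ⌊x⌋₊ := by
  have h1 := Helper601.PNT.pi_tendsto
  have hlin : Tendsto (fun x : ℝ => (1 + ε) * x) atTop atTop :=
    tendsto_id.const_mul_atTop (by linarith)
  have h2 := h1.comp hlin
  have h3 : Tendsto (fun x : ℝ => Real.log x / Real.log ((1 + ε) * x)) atTop (𝓝 1) := by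
    have h4 : Tendsto (fun x : ℝ => (1 + Real.log (1 + ε) * (Real.log x)⁻¹)⁻¹) atTop (𝓝 1) := by
      have h5 : Tendsto (fun x : ℝ => 1 + Real.log (1 + ε) * (Real.log x)⁻¹) atTop (𝓝 (1 + Real.log (1 + ε) * 0)) :=
        tendsto_const_nhds.add (tendsto_const_nhds.mul (tendsto_inv_atTop_zero.comp Real.tendsto_log_atTop))
      have h6 := h5.inv₀ (by simp)
      simpa using h6
    refine h4.congr' ?_
    filter_upwards [eventually_gt_atTop 1] with x hx
    have hx0 : 0 < x := by linarith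
    have hl : 0 < Real.log x := Real.log_pos hx
    have hl2 : 0 < Real.log (1 + ε) := Real.log_pos (by linarith)
    rw [Real.log_mul (by linarith) hx0.ne']
    field_simp
    ring
  have h7 : Tendsto (fun x : ℝ => (1 + ε) * ((Nat.primeCounting ⌊(1 + ε) * x⌋₊ : ℝ) *
      Real.log ((1 + ε) * x) / ((1 + ε) * x)) * (Real.log x / Real.log ((1 + ε) * x)) -
      (Nat.primeCounting ⌊x⌋₊ : ℝ) * Real.log x / x) atTop (𝓝 ((1 + ε) * 1 * 1 - 1)) :=
    ((h2.const_mul (1 + ε)).mul h3).sub h1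
  have h8 : (1 + ε) * 1 * 1 - 1 = ε := by ring
  rw [h8] at h7
  filter_upwards [h7.eventually_const_le (show ε / 2 < ε by linarith), eventually_gt_atTop 1] with x hx hx1
  have hx0 : 0 < x := by linarith
  have hl : 0 < Real.log x := Real.log_pos hx1
  have hl2 : 0 < Real.log ((1 + ε) * x) := Real.log_pos (by nlinarith)
  have e1 : (1 + ε) * ((Nat.primeCounting ⌊(1 + ε) * x⌋₊ : ℝ) *
      Real.log ((1 + ε) * x) / ((1 + ε) * x)) * (Real.log x / Real.log ((1 + ε) * x)) -
      (Nat.primeCounting ⌊x⌋₊ : ℝ) * Real.log x / x =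
      ((Nat.primeCounting ⌊(1 + ε) * x⌋₊ : ℝ) - Nat.primeCounting ⌊x⌋₊) * (Real.log x / x) := by
    have : (1 + ε) ≠ 0 := by linarith
    field_simp
  rw [e1] at hx
  calc ε / 2 * (x / Real.log x) ≤ (((Nat.primeCounting ⌊(1 + ε) * x⌋₊ : ℝ) - Nat.primeCounting ⌊x⌋₊) * (Real.log x / x)) *
        (x / Real.log x) := by gcongr
    _ = _ := by field_simp

lemma primeCounting_sub (a b : ℕ) (hab : a ≤ b) :
    (((Ico (a + 1) (b + 1)).filter Nat.Prime).card : ℝ) = (Nat.primeCounting b : ℝ) - Nat.primeCounting a := by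
  have h : Nat.primeCounting b = Nat.primeCounting a + ((Ico (a + 1) (b + 1)).filter Nat.Prime).card := by
    unfold Nat.primeCounting Nat.primeCounting'
    rw [Nat.count_eq_card_filter_range, Nat.count_eq_card_filter_range]
    rw [range_eq_Ico, ← Ico_union_Ico_eq_Ico (a := 0) (b := a + 1) (c := b + 1) (by omega) (by omega),
      filter_union, card_union_of_disjoint]
    · simp
    · rw [Finset.disjoint_left]
      intro x hx hx2
      rw [mem_filter, mem_Ico] at hx hx2
      omega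
  rw [h]
  push_cast
  ring

/-- existence of a prime in `(x,(1+ε)x]` -/
lemma exists_prime_short (ε : ℝ) (hε : 0 < ε) : ∀ᶠ x : ℝ in atTop, ∃ p : ℕ, p.Prime ∧ x < p ∧ (p : ℝ) ≤ (1 + ε) * x := by
  filter_upwards [pnt_short ε hε, eventually_gt_atTop 1] with x hx hx1
  have hl : 0 < Real.log x := Real.log_pos hx1
  have h1 : 0 < ε / 2 * (x / Real.log x) := by positivity
  have h2 : Nat.primeCounting ⌊x⌋₊ < Nat.primeCounting ⌊(1 + ε) * x⌋₊ := by
    have : (Nat.primeCounting ⌊x⌋₊ : ℝ) < Nat.primeCounting ⌊(1 + ε) * x⌋₊ := by linarith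
    exact_mod_cast this
  have h3 : ⌊x⌋₊ ≤ ⌊(1 + ε) * x⌋₊ := Nat.floor_mono (by nlinarith)
  have h4 := primeCounting_sub _ _ h3
  have h5 : 0 < ((Ico (⌊x⌋₊ + 1) (⌊(1 + ε) * x⌋₊ + 1)).filter Nat.Prime).card := by
    have : (0 : ℝ) < (((Ico (⌊x⌋₊ + 1) (⌊(1 + ε) * x⌋₊ + 1)).filter Nat.Prime).card : ℝ) := by
      rw [h4]; have : (Nat.primeCounting ⌊x⌋₊ : ℝ) < Nat.primeCounting ⌊(1 + ε) * x⌋₊ := by exact_mod_cast h2
      linarith
    exact_mod_cast this
  obtain ⟨p, hp⟩ := card_pos.mp h5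
  rw [mem_filter, mem_Ico] at hp
  refine ⟨p, hp.2, ?_, ?_⟩
  · exact (Nat.floor_lt (by linarith)).mp (by omega)
  · exact (Nat.le_floor_iff (by positivity)).mp (by omega)

theorem small_M (J : ℕ) (hJ : 4 ≤ J) : ∀ᶠ k : ℕ in atTop, ∀ M : ℕ, k ≤ M + 1 → M < J * k →
    ∃ p : ℕ, p.Prime ∧ k < p ∧ p < 2 * k ∧ (M + k) / p ≠ M / p := by
  have hJ' : (4 : ℝ) ≤ J := by exact_mod_cast hJ
  obtain ⟨x1, hx1⟩ := eventually_atTop.mp (exists_prime_short (1 / 5) (by norm_num))
  obtain ⟨x2, hx2⟩ := eventually_atTop.mp (exists_prime_short (1 / 4) (by norm_num))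
  obtain ⟨x3, hx3⟩ := eventually_atTop.mp (exists_prime_short (1 / J) (by positivity))
  filter_upwards [eventually_ge_atTop (max 10 (max ⌈x1⌉₊ (max ⌈x2⌉₊ ⌈x3⌉₊)))] with k hk M hM1 hM2
  have hk10 : 10 ≤ k := (le_max_left _ _).trans hk
  have hk' : (10 : ℝ) ≤ k := by exact_mod_cast hk10
  have hkx1 : x1 ≤ k := (Nat.le_ceil x1).trans (by exact_mod_cast (le_max_left _ _).trans ((le_max_right _ _).trans hk))
  have hkx2 : x2 ≤ k := (Nat.le_ceil x2).trans (by
    exact_mod_cast (le_max_left _ _).trans ((le_max_right _ _).trans ((le_max_right _ _).trans hk)))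
  have hkx3 : x3 ≤ k := (Nat.le_ceil x3).trans (by
    exact_mod_cast (le_max_right _ _).trans ((le_max_right _ _).trans ((le_max_right _ _).trans hk)))
  have fin : ∀ p t : ℕ, 0 < p → M < t * p → t * p ≤ M + k → (M + k) / p ≠ M / p := by
    intro p t hp h1 h2
    have h3 : M / p < t := (Nat.div_lt_iff_lt_mul hp).mpr h1
    have h4 : t ≤ (M + k) / p := (Nat.le_div_iff_mul_le hp).mpr h2
    omega
  rcases le_or_gt (2 * M) (3 * k) with h | h
  · obtain ⟨p, hp, hp1, hp2⟩ := hx1 (3 / 2 * k) (by linarith)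
    have h1 : 3 * k < 2 * p := by
      have : (3 : ℝ) * k < 2 * p := by linarith
      exact_mod_cast this
    have h2 : 10 * p ≤ 18 * k := by
      have : (10 : ℝ) * p ≤ 18 * k := by linarith
      exact_mod_cast this
    exact ⟨p, hp, by omega, by omega, fin p 1 hp.pos (by omega) (by omega)⟩
  rcases lt_or_ge M (2 * k) with h' | h'
  · obtain ⟨p, hp, hp1, hp2⟩ := hx2 k hkx2
    have h1 : k < p := by exact_mod_cast hp1
    have h2 : 4 * p ≤ 5 * k := by
      have : (4 : ℝ) * p ≤ 5 * k := by linarith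
      exact_mod_cast this
    exact ⟨p, hp, h1, by omega, fin p 2 hp.pos (by omega) (by omega)⟩
  · set j := M / k with hj
    have hk0 : 0 < k := by omega
    have hj2 : 2 ≤ j := (Nat.le_div_iff_mul_le hk0).mpr h'
    have hj2' : (2 : ℝ) ≤ j := by exact_mod_cast hj2
    have hjk : j * k ≤ M := Nat.div_mul_le_self M k
    have hjk' : (j : ℝ) * k ≤ M := by exact_mod_cast hjk
    have hjk2 : M < (j + 1) * k := by rw [mul_comm]; exact Nat.lt_mul_div_succ M hk0
    have hjk2' : (M : ℝ) < (j + 1) * k := by exact_mod_cast hjk2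
    have hM2' : (M : ℝ) < J * k := by exact_mod_cast hM2
    have hMj : (k : ℝ) ≤ M / j := by rw [le_div_iff₀ (by linarith)]; linarith
    obtain ⟨p, hp, hp1, hp2⟩ := hx3 (M / j) (hkx3.trans hMj)
    have hjpos : (0 : ℝ) < j := by linarith
    rw [div_lt_iff₀ hjpos] at hp1
    have e1 : (1 + 1 / (J : ℝ)) * (M / j) = ((1 + 1 / (J : ℝ)) * M) / j := by ring
    rw [e1, le_div_iff₀ hjpos] at hp2
    have h1 : M < j * p := by
      have : (M : ℝ) < j * p := by linarith
      exact_mod_cast this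
    have h2 : (M : ℝ) / J ≤ k := by rw [div_le_iff₀ (by linarith)]; linarith
    have h3 : j * p ≤ M + k := by
      have : (j : ℝ) * p ≤ M + k := by
        have e2 : (1 + 1 / (J : ℝ)) * M = M + M / J := by ring
        linarith
      exact_mod_cast this
    refine ⟨p, hp, ?_, ?_, fin p j hp.pos h1 h3⟩
    · by_contra hc
      rw [not_lt] at hc
      have : j * p ≤ j * k := Nat.mul_le_mul_left _ hc
      omega
    · by_contra hc
      rw [not_lt] at hc
      have h4 : j * (2 * k) ≤ j * p := Nat.mul_le_mul_left _ hc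
      have h5 : j * p < (j + 2) * k := by nlinarith
      have h6 : j * (2 * k) < (j + 2) * k := by omega
      have h7 : j * 2 < j + 2 := by
        by_contra h8
        rw [not_lt] at h8
        have := Nat.mul_le_mul_right k h8
        nlinarith
      omega

end Pool.Agent.H469R2.NK
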