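import Pool.Agent.H469R2.NK.LargeM
import Pool.Agent.H469R2.NK.MidM
import Pool.Agent.H469R2.NK.SmallM

open Finset Filter Topology

namespace Pool.Agent.H469R2.NK

theorem exists_prime (D : ℕ) (hD : 1 ≤ D) : ∀ᶠ k : ℕ in atTop, ∀ M : ℕ, k ≤ M + 1 → M + k ≤ k ^ D →
    ∃ p : ℕ, p.Prime ∧ k < p ∧ p < 2 * k ∧ (M + k) / p ≠ M / p := by
  obtain ⟨C₁, hC₁, h1⟩ := large_M D hD
  obtain ⟨C₂, hC₂, h2⟩ := mid_M
  set J : ℕ := max 8 (⌊4 * (C₁ + C₂)⌋₊ + 1) with hJ
  have hJ8 : 8 ≤ J := le_max_left _ _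
  have hJC : 4 * (C₁ + C₂) < J := by
    have h3 := Nat.lt_floor_add_one (4 * (C₁ + C₂))
    have h4 : ((⌊4 * (C₁ + C₂)⌋₊ + 1 : ℕ) : ℝ) ≤ J := by exact_mod_cast le_max_right _ _
    push_cast at h4
    linarith
  have hJ' : (8 : ℝ) ≤ J := by exact_mod_cast hJ8
  have hpnt := (tendsto_natCast_atTop_atTop (R := ℝ)).eventually (pnt_short (1 / (2 * J)) (by positivity))
  filter_upwards [h1 J (by omega), h2 J hJ8, small_M J (by omega), hpnt, eventually_ge_atTop (2 * J)] with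
    k hk1 hk2 hk3 hk4 hk5 M hM1 hM2
  have hk0 : 0 < k := by omega
  have hk5' : (2 : ℝ) * J ≤ k := by exact_mod_cast hk5
  have hkpos : (0 : ℝ) < k := by exact_mod_cast hk0
  rcases lt_or_ge M (J * k) with h | h
  · exact hk3 M hM1 h
  by_contra hcon
  push Not at hcon
  set U := k + k / J with hU
  have hU2 : U < 2 * k := by
    have : k / J ≤ k / 8 := Nat.div_le_div_left hJ8 (by norm_num)
    omega
  have hfilter : (Ico (k + 1) (U + 1)).filter (fun p => p.Prime ∧ (M + k) / p = M / p) =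
      (Ico (k + 1) (U + 1)).filter Nat.Prime := by
    apply filter_congr
    intro p hp
    rw [mem_Ico] at hp
    constructor
    · exact fun h => h.1
    · exact fun h => ⟨h, hcon p h (by omega) (by omega)⟩
  have hUk : k ≤ U := Nat.le_add_right _ _
  have hcard := primeCounting_sub k U hUk
  have hlogk : 0 < Real.log k := Real.log_pos (by linarith)
  have hlow : 1 / (4 * J) * (k / Real.log k) ≤ (((Ico (k + 1) (U + 1)).filter Nat.Prime).card : ℝ) := by
    rw [hcard]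
    have h3 : ⌊(1 + 1 / (2 * (J : ℝ))) * k⌋₊ ≤ U := by
      apply Nat.floor_le_of_le
      have h4 : (k : ℝ) / J < ((k / J : ℕ) : ℝ) + 1 := by
        rw [div_lt_iff₀ (by positivity)]
        exact_mod_cast (by rw [mul_comm]; exact Nat.lt_mul_div_succ k (by omega) : k < (k / J + 1) * J)
      have h5 : (1 : ℝ) ≤ k / (2 * J) := by rw [le_div_iff₀ (by positivity)]; linarith
      have h6 : (U : ℝ) = k + ((k / J : ℕ) : ℝ) := by rw [hU]; push_cast; ring
      have h7 : (k : ℝ) / J = 2 * (k / (2 * J)) := by field_simp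
      have h8 : (1 + 1 / (2 * (J : ℝ))) * k = k + k / (2 * J) := by ring
      rw [h6, h8]
      linarith
    have h4 : (Nat.primeCounting ⌊(1 + 1 / (2 * (J : ℝ))) * k⌋₊ : ℝ) ≤ Nat.primeCounting U := by
      exact_mod_cast Nat.monotone_primeCounting h3
    rw [Nat.floor_natCast] at hk4
    have e1 : (1 : ℝ) / (2 * J) / 2 = 1 / (4 * J) := by ring
    rw [e1] at hk4
    linarith
  have hupp : (((Ico (k + 1) (U + 1)).filter Nat.Prime).card : ℝ) ≤ (C₁ + C₂) / (J : ℝ) ^ 2 * (k / Real.log k) := by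
    rw [← hfilter]
    have hq : 0 ≤ (k : ℝ) / Real.log k := by positivity
    rcases le_total (M : ℝ) ((k : ℝ) ^ (11 / 10 : ℝ)) with hM | hM
    · refine (hk2 M h hM).trans ?_
      gcongr
      linarith
    · refine (hk1 M hM hM2).trans ?_
      gcongr
      linarith
  have hq : 0 < (k : ℝ) / Real.log k := by positivity
  have h9 := le_of_mul_le_mul_right (hlow.trans hupp) hq
  rw [div_le_div_iff₀ (by positivity) (by positivity)] at h9
  nlinarith

/-- `n ≥ 2k` and no prime in `(k, 2k)` divides `(n-1)(n-2)⋯(n-k)`. -/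
def Good (k n : ℕ) : Prop :=
  2 * k ≤ n ∧ ∀ p : ℕ, p.Prime → k < p → p < 2 * k → ¬ p ∣ ∏ i ∈ Finset.Icc 1 k, (n - i)

theorem not_good (D : ℕ) (hD : 1 ≤ D) : ∀ᶠ k : ℕ in atTop, ∀ n : ℕ, n ≤ k ^ D → ¬ Good k n := by
  filter_upwards [exists_prime D hD, eventually_ge_atTop 1] with k hk hk1 n hn hgood
  obtain ⟨h2k, hg⟩ := hgood
  obtain ⟨p, hp, hp1, hp2, hp3⟩ := hk (n - 1 - k) (by omega) (by omega)
  refine hg p hp hp1 hp2 ?_
  set M := n - 1 - k with hM
  have hnM : n = M + k + 1 := by omega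
  set t := (M + k) / p with ht
  have h1 : M / p ≤ t := Nat.div_le_div_right (by omega)
  have h2 : M / p < t := by omega
  have h3 : M < t * p := (Nat.div_lt_iff_lt_mul hp.pos).mp h2
  have h4 : t * p ≤ M + k := Nat.div_mul_le_self _ _
  have h5 : n - t * p ∈ Finset.Icc 1 k := by
    rw [Finset.mem_Icc]; omega
  refine Dvd.dvd.trans ?_ (Finset.dvd_prod_of_mem _ h5)
  have h6 : n - (n - t * p) = t * p := by omega
  rw [h6]
  exact dvd_mul_left _ _

end Pool.Agent.H469R2.NK
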