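import Pool.Agent.H469R2.NK.Sieve

open Finset Filter

namespace Pool.Agent.H469R2.NK

theorem large_M (D : ℕ) (hD : 1 ≤ D) : ∃ C₁ : ℝ, 0 < C₁ ∧ ∀ J : ℕ, 2 ≤ J → ∀ᶠ k : ℕ in atTop, ∀ M : ℕ,
    (k : ℝ) ^ (11 / 10 : ℝ) ≤ M → M + k ≤ k ^ D →
    ((((Ico (k + 1) (k + k / J + 1)).filter (fun p => p.Prime ∧ (M + k) / p = M / p)).card : ℕ) : ℝ) ≤
      C₁ / (J : ℝ) ^ 2 * (k / Real.log k) := by
  obtain ⟨η, hη0, hη1, C, hC, Hsaw⟩ := saw_sum_bound (2 * D) (by omega) (1 / 10) (by norm_num)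
  set θ : ℝ := η / 8 with hθ
  have hθ0 : 0 < θ := by positivity
  refine ⟨4 / θ + 1, by positivity, ?_⟩
  intro J hJ
  have hJ' : (2 : ℝ) ≤ J := by exact_mod_cast hJ
  have ev1 : ∀ᶠ k : ℕ in atTop, (2 + 2 * C) * (J : ℝ) ^ 2 * Real.log k ≤ (k : ℝ) ^ (η / 2) := by
    have h1 := (isLittleO_log_rpow_atTop (show 0 < η / 2 by positivity)).bound
      (show 0 < 1 / ((2 + 2 * C) * (J : ℝ) ^ 2) by positivity)
    have h2 := tendsto_natCast_atTop_atTop (R := ℝ) |>.eventually h1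
    filter_upwards [h2, eventually_ge_atTop 1] with k hk hk1
    have hk' : (1 : ℝ) ≤ k := by exact_mod_cast hk1
    rw [Real.norm_of_nonneg (Real.log_nonneg hk'), Real.norm_of_nonneg (by positivity)] at hk
    have h3 : 0 < (2 + 2 * C) * (J : ℝ) ^ 2 := by positivity
    calc (2 + 2 * C) * (J : ℝ) ^ 2 * Real.log k ≤ (2 + 2 * C) * (J : ℝ) ^ 2 *
          (1 / ((2 + 2 * C) * (J : ℝ) ^ 2) * (k : ℝ) ^ (η / 2)) := by gcongr
      _ = _ := by field_simp
  have ev2 : ∀ᶠ k : ℕ in atTop, (2 : ℝ) ≤ (k : ℝ) ^ (15 / 16 - 1 / 2 : ℝ) := by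
    have := (tendsto_rpow_atTop (show (0 : ℝ) < 15 / 16 - 1 / 2 by norm_num)).comp
      (tendsto_natCast_atTop_atTop (R := ℝ))
    exact this.eventually_ge_atTop 2
  filter_upwards [ev1, ev2, eventually_ge_atTop 4] with k hk1 hk2 hk4 M hM1 hM2
  have hk4' : (4 : ℝ) ≤ k := by exact_mod_cast hk4
  have hkpos : (0 : ℝ) < k := by linarith
  have hk1' : (1 : ℝ) ≤ k := by linarith
  set U := k + k / J with hU
  have hUk : k ≤ U := Nat.le_add_right _ _
  set R : ℕ := ⌊(k : ℝ) ^ θ⌋₊ with hR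
  have hkθ : 1 ≤ (k : ℝ) ^ θ := Real.one_le_rpow hk1' hθ0.le
  have hR1 : 1 ≤ R := Nat.floor_pos.mpr hkθ
  have hRle : (R : ℝ) ≤ (k : ℝ) ^ θ := Nat.floor_le (by positivity)
  have hRlt : (k : ℝ) ^ θ < R + 1 := Nat.lt_floor_add_one _
  have hsqrt2 : (2 : ℝ) ≤ (k : ℝ) ^ (1 / 2 : ℝ) := by
    calc (2 : ℝ) = (4 : ℝ) ^ (1 / 2 : ℝ) := by
          rw [show (4 : ℝ) = 2 ^ (2 : ℝ) by norm_num, ← Real.rpow_mul (by norm_num)]; norm_num
      _ ≤ _ := by gcongr
  have hdR : ∀ d : ℕ, d ≤ R ^ 2 → (d : ℝ) ≤ (k : ℝ) ^ (1 / 16 : ℝ) := by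
    intro d hd
    calc (d : ℝ) ≤ (R : ℝ) ^ 2 := by exact_mod_cast hd
      _ ≤ ((k : ℝ) ^ θ) ^ 2 := by gcongr
      _ = (k : ℝ) ^ (θ * 2) := by rw [← Real.rpow_natCast, ← Real.rpow_mul hkpos.le]; norm_num
      _ ≤ _ := by
        apply Real.rpow_le_rpow_of_exponent_le hk1'
        rw [hθ]; linarith
  have hmain := sieve_set ((Ico (k + 1) (U + 1)).filter (fun m => (M + k) / m = M / m)) (XX k U)
    (XX_nonneg k U (by omega) hUk) R hR1 (2 + 2 * (C * (k : ℝ) ^ (1 - η))) (by positivity) (by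
      intro d hd1 hdR2
      have hd := hdR d hdR2
      have hd1' : (1 : ℝ) ≤ d := by exact_mod_cast hd1
      have hdpos : (0 : ℝ) < d := by linarith
      -- size of k / d
      have hkd : (k : ℝ) ^ (15 / 16 : ℝ) ≤ k / d := by
        rw [le_div_iff₀ hdpos]
        calc (k : ℝ) ^ (15 / 16 : ℝ) * d ≤ (k : ℝ) ^ (15 / 16 : ℝ) * (k : ℝ) ^ (1 / 16 : ℝ) := by gcongr
          _ = k := by rw [← Real.rpow_add hkpos]; norm_num
      have hkd2 : 2 * (k : ℝ) ^ (1 / 2 : ℝ) ≤ k / d := by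
        refine le_trans ?_ hkd
        calc 2 * (k : ℝ) ^ (1 / 2 : ℝ) ≤ (k : ℝ) ^ (15 / 16 - 1 / 2 : ℝ) * (k : ℝ) ^ (1 / 2 : ℝ) := by gcongr
          _ = _ := by rw [← Real.rpow_add hkpos]; norm_num
      have hNlow : (k : ℝ) ^ (1 / 2 : ℝ) ≤ ((k / d : ℕ) : ℝ) := by
        have h1 : (k : ℝ) / d < ((k / d : ℕ) : ℝ) + 1 := by
          rw [div_lt_iff₀ hdpos]
          exact_mod_cast (by rw [mul_comm]; exact Nat.lt_mul_div_succ k (by omega) : k < (k / d + 1) * d)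
        linarith
      have hN2 : 2 ≤ k / d := by
        have : (2 : ℝ) ≤ ((k / d : ℕ) : ℝ) := hsqrt2.trans hNlow
        exact_mod_cast this
      have hdk : d ≤ k := by
        by_contra h
        rw [not_le] at h
        rw [Nat.div_eq_of_lt h] at hN2
        omega
      have hNle : ((k / d : ℕ) : ℝ) ≤ k / d := Nat.cast_div_le
      have hNk : ((k / d : ℕ) : ℝ) ≤ k := hNle.trans (div_le_self hkpos.le hd1')
      -- length
      have hUd : U / d ≤ k / d + (k / d) / 2 + 1 := by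
        have h1 : k / J ≤ k / 2 := Nat.div_le_div_left hJ (by norm_num)
        have h2 : U / d ≤ (k + k / 2) / d := Nat.div_le_div_right (by omega)
        refine h2.trans ?_
        have h3 : (k + k / 2) / d ≤ k / d + (k / 2) / d + 1 := by
          rw [Nat.add_div (by omega : 0 < d)]
          split_ifs <;> omega
        rw [Nat.div_div_eq_div_mul, mul_comm 2 d, ← Nat.div_div_eq_div_mul] at h3
        exact h3
      have hL : U / d - k / d ≤ k / d := by omega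
      have haL : k / d + 1 + (U / d - k / d) ≤ 3 * (k / d) := by omega
      have hYlow : ((k / d : ℕ) : ℝ) ^ (1 + 1 / 10 : ℝ) ≤ (M : ℝ) / d := by
        rw [le_div_iff₀ hdpos]
        calc ((k / d : ℕ) : ℝ) ^ (1 + 1 / 10 : ℝ) * d ≤ ((k : ℝ) / d) ^ (1 + 1 / 10 : ℝ) * (d : ℝ) ^ (1 + 1 / 10 : ℝ) := by
              gcongr
              calc (d : ℝ) = (d : ℝ) ^ (1 : ℝ) := (Real.rpow_one _).symm
                _ ≤ _ := Real.rpow_le_rpow_of_exponent_le hd1' (by norm_num)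
          _ = (k : ℝ) ^ (1 + 1 / 10 : ℝ) := by
              rw [← Real.mul_rpow (by positivity) (by positivity), div_mul_cancel₀ _ hdpos.ne']
          _ ≤ M := by
              refine le_trans (le_of_eq ?_) hM1
              norm_num
      have hYup : ((M + k : ℕ) : ℝ) / d ≤ ((k / d : ℕ) : ℝ) ^ (2 * D) := by
        calc ((M + k : ℕ) : ℝ) / d ≤ ((M + k : ℕ) : ℝ) := div_le_self (by positivity) hd1'
          _ ≤ (k : ℝ) ^ D := by exact_mod_cast hM2
          _ = ((k : ℝ) ^ (1 / 2 : ℝ)) ^ (2 * D) := by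
              rw [pow_mul, ← Real.rpow_natCast ((k : ℝ) ^ (1 / 2 : ℝ)) 2, ← Real.rpow_mul hkpos.le]
              norm_num
          _ ≤ _ := by gcongr
      have hMMk : (M : ℝ) / d ≤ ((M + k : ℕ) : ℝ) / d := by
        gcongr; exact_mod_cast Nat.le_add_right _ _
      have hpow : ((k / d : ℕ) : ℝ) ^ (1 - η) ≤ (k : ℝ) ^ (1 - η) := by
        gcongr
        linarith
      have s1 := Hsaw (k / d) (k / d + 1) (U / d - k / d) (((M + k : ℕ) : ℝ) / d) (by omega) (by omega) hL haL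
        (hYlow.trans hMMk) hYup
      have s2 := Hsaw (k / d) (k / d + 1) (U / d - k / d) ((M : ℝ) / d) (by omega) (by omega) hL haL
        hYlow (hMMk.trans hYup)
      have s1' := s1.trans (mul_le_mul_of_nonneg_left hpow hC.le)
      have s2' := s2.trans (mul_le_mul_of_nonneg_left hpow hC.le)
      have := card_mult_est k d U M hd1 hdk hUk s1' s2'
      rw [Finset.filter_filter]
      exact this)
    ((Ico (k + 1) (U + 1)).filter (fun p => p.Prime ∧ (M + k) / p = M / p))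
    (by
      intro p hp
      rw [mem_filter] at hp ⊢
      exact ⟨hp.1, hp.2.2⟩)
    (by
      intro p hp
      rw [mem_filter, mem_Ico] at hp
      refine ⟨hp.2.1, ?_⟩
      have h1 : (R : ℝ) ≤ k := by
        refine hRle.trans ?_
        calc (k : ℝ) ^ θ ≤ (k : ℝ) ^ (1 : ℝ) := Real.rpow_le_rpow_of_exponent_le hk1' (by rw [hθ]; linarith)
          _ = k := Real.rpow_one _
      have h2 : R ≤ k := by exact_mod_cast h1
      omega)
  refine hmain.trans ?_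
  have hlogk : 0 < Real.log k := Real.log_pos (by linarith)
  have hX := XX_le k U J (by omega) (by omega) hU
  have hX0 := XX_nonneg k U (by omega) hUk
  have t1 : 4 * XX k U / Real.log ((R : ℝ) + 1) ≤ 4 / θ / (J : ℝ) ^ 2 * (k / Real.log k) := by
    have hl : θ * Real.log k ≤ Real.log ((R : ℝ) + 1) := by
      rw [← Real.log_rpow hkpos]
      exact Real.log_le_log (by positivity) hRlt.le
    calc 4 * XX k U / Real.log ((R : ℝ) + 1) ≤ 4 * (k / (J : ℝ) ^ 2) / (θ * Real.log k) := by gcongr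
      _ = _ := by field_simp
  have t2 : (2 + 2 * (C * (k : ℝ) ^ (1 - η))) * (R : ℝ) ^ 4 ≤ 1 / (J : ℝ) ^ 2 * (k / Real.log k) := by
    have h1 : (R : ℝ) ^ 4 ≤ (k : ℝ) ^ (η / 2) := by
      calc (R : ℝ) ^ 4 ≤ ((k : ℝ) ^ θ) ^ 4 := by gcongr
        _ = _ := by
          rw [← Real.rpow_natCast, ← Real.rpow_mul hkpos.le, hθ]
          congr 1; push_cast; ring
    have h2 : 2 + 2 * (C * (k : ℝ) ^ (1 - η)) ≤ (2 + 2 * C) * (k : ℝ) ^ (1 - η) := by
      have : 1 ≤ (k : ℝ) ^ (1 - η) := Real.one_le_rpow hk1' (by linarith)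
      nlinarith
    have h3 : (k : ℝ) ^ (1 - η) * (k : ℝ) ^ (η / 2) * (k : ℝ) ^ (η / 2) = k := by
      rw [← Real.rpow_add hkpos, ← Real.rpow_add hkpos]
      ring_nf
      exact Real.rpow_one _
    have h4 : 0 < (J : ℝ) ^ 2 * Real.log k := by positivity
    rw [show 1 / (J : ℝ) ^ 2 * (k / Real.log k) = k / ((J : ℝ) ^ 2 * Real.log k) by field_simp,
      le_div_iff₀ h4]
    calc (2 + 2 * (C * (k : ℝ) ^ (1 - η))) * (R : ℝ) ^ 4 * ((J : ℝ) ^ 2 * Real.log k)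
        ≤ ((2 + 2 * C) * (k : ℝ) ^ (1 - η)) * (k : ℝ) ^ (η / 2) * ((J : ℝ) ^ 2 * Real.log k) := by gcongr
      _ = (k : ℝ) ^ (1 - η) * (k : ℝ) ^ (η / 2) * ((2 + 2 * C) * (J : ℝ) ^ 2 * Real.log k) := by ring
      _ ≤ (k : ℝ) ^ (1 - η) * (k : ℝ) ^ (η / 2) * (k : ℝ) ^ (η / 2) := by gcongr
      _ = k := h3
  calc _ ≤ 4 / θ / (J : ℝ) ^ 2 * (k / Real.log k) + 1 / (J : ℝ) ^ 2 * (k / Real.log k) := add_le_add t1 t2
    _ = _ := by ring

end Pool.Agent.H469R2.NK
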