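import Pool.Agent.H469R2.NK.ExpSum

open Finset

namespace Pool.Agent.H469R2.NK

/-- sawtooth -/
noncomputable def saw (x : ℝ) : ℝ := Int.fract x - 1 / 2

/-- periodic second Bernoulli function -/
noncomputable def BB (x : ℝ) : ℝ := Int.fract x ^ 2 - Int.fract x + 6⁻¹

lemma BB_hasSum (x : ℝ) :
    HasSum (fun n : ℕ => 1 / (n : ℝ) ^ 2 * Real.cos (2 * Real.pi * n * x)) (Real.pi ^ 2 * BB x) := by
  have h := hasSum_one_div_nat_pow_mul_cos (k := 1) one_ne_zero (x := Int.fract x)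
    ⟨Int.fract_nonneg x, (Int.fract_lt_one x).le⟩
  have e1 : ((-1 : ℝ) ^ (1 + 1) * (2 * Real.pi) ^ (2 * 1) / 2 / (2 * 1).factorial *
        (Polynomial.map (algebraMap ℚ ℝ) (Polynomial.bernoulli (2 * 1))).eval (Int.fract x)) =
      Real.pi ^ 2 * BB x := by
    have h2 := bernoulliFun_two (Int.fract x)
    unfold bernoulliFun at h2
    rw [mul_one, h2]
    unfold BB
    simp only [Nat.factorial]
    push_cast
    ring
  rw [e1] at h
  have e2 : (fun n : ℕ => 1 / (n : ℝ) ^ (2 * 1) * Real.cos (2 * Real.pi * n * Int.fract x)) =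
      fun n : ℕ => 1 / (n : ℝ) ^ 2 * Real.cos (2 * Real.pi * n * x) := by
    funext n
    rw [mul_one]
    congr 1
    have h3 : 2 * Real.pi * n * Int.fract x = 2 * Real.pi * n * x - ((n * ⌊x⌋ : ℤ) : ℝ) * (2 * Real.pi) := by
      rw [← Int.self_sub_floor]
      push_cast
      ring
    rw [h3, Real.cos_sub_int_mul_two_pi]
  rwa [e2] at h

lemma fract_add_cases {x δ : ℝ} (hδ0 : 0 ≤ δ) (hδ : δ ≤ 1) :
    (Int.fract x + δ < 1 ∧ Int.fract (x + δ) = Int.fract x + δ) ∨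
      (1 ≤ Int.fract x + δ ∧ Int.fract (x + δ) = Int.fract x + δ - 1) := by
  have h0 := Int.fract_nonneg x
  have h1 := Int.fract_lt_one x
  rcases lt_or_ge (Int.fract x + δ) 1 with h | h
  · left
    refine ⟨h, ?_⟩
    rw [Int.fract_eq_iff]
    refine ⟨by linarith, h, ⌊x⌋, ?_⟩
    have := Int.self_sub_floor x
    linarith
  · right
    refine ⟨h, ?_⟩
    rw [Int.fract_eq_iff]
    refine ⟨by linarith, by linarith, ⌊x⌋ + 1, ?_⟩
    have := Int.self_sub_floor x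
    push_cast
    linarith

lemma saw_ge {x δ : ℝ} (hδ0 : 0 < δ) (hδ : δ ≤ 1) : (BB (x + δ) - BB x) / (2 * δ) - δ / 2 ≤ saw x := by
  rw [sub_le_iff_le_add, div_le_iff₀ (by positivity)]
  unfold saw BB
  rcases fract_add_cases hδ0.le hδ (x := x) with ⟨h, h2⟩ | ⟨h, h2⟩ <;> rw [h2] <;> nlinarith

lemma saw_le {x δ : ℝ} (hδ0 : 0 < δ) (hδ : δ ≤ 1) : saw x ≤ (BB x - BB (x - δ)) / (2 * δ) + δ / 2 := by
  have h := fract_add_cases hδ0.le hδ (x := x - δ)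
  rw [sub_add_cancel] at h
  have h0 := Int.fract_nonneg (x - δ)
  have h1 := Int.fract_lt_one (x - δ)
  rw [← sub_le_iff_le_add, le_div_iff₀ (by positivity)]
  unfold saw BB
  rcases h with ⟨h, h2⟩ | ⟨h, h2⟩ <;> rw [h2] <;> nlinarith

lemma sum_cos_le (x : ℕ → ℝ) (L : ℕ) (n : ℕ) (s : ℝ) :
    |∑ m ∈ range L, Real.cos (2 * Real.pi * n * (x m + s))| ≤ ‖∑ m ∈ range L, e (n * x m)‖ := by
  have h1 : ((∑ m ∈ range L, Real.cos (2 * Real.pi * n * (x m + s)) : ℝ)) =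
      (e (n * s) * ∑ m ∈ range L, e (n * x m)).re := by
    rw [mul_sum, Complex.re_sum]
    refine sum_congr rfl fun m _ => ?_
    rw [← e_add]
    unfold e
    rw [Complex.exp_ofReal_mul_I_re]
    congr 1; ring
  rw [h1]
  refine (Complex.abs_re_le_norm _).trans ?_
  rw [norm_mul, norm_e, one_mul]

/-- the constant `∑ n^{-3/2}` -/
noncomputable def C0 : ℝ := ∑' n : ℕ, 1 / (n : ℝ) ^ (3 / 2 : ℝ)

lemma C0_summable : Summable fun n : ℕ => 1 / (n : ℝ) ^ (3 / 2 : ℝ) :=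
  Real.summable_one_div_nat_rpow.mpr (by norm_num)

lemma C0_nonneg : 0 ≤ C0 := tsum_nonneg fun n => by positivity

lemma sum_BB_le (x : ℕ → ℝ) (L : ℕ) (E T s : ℝ) (hE : 0 ≤ E)
    (h : ∀ n : ℕ, 1 ≤ n → ‖∑ m ∈ range L, e (n * x m)‖ ≤ E + T * (n : ℝ) ^ (1 / 2 : ℝ)) :
    |∑ m ∈ range L, BB (x m + s)| ≤ C0 * (E + T) := by
  have hs : HasSum (fun n : ℕ => ∑ m ∈ range L, 1 / (n : ℝ) ^ 2 * Real.cos (2 * Real.pi * n * (x m + s)))
      (∑ m ∈ range L, Real.pi ^ 2 * BB (x m + s)) := hasSum_sum fun m _ => BB_hasSum _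
  rw [← mul_sum] at hs
  have hb : ∀ n : ℕ, ‖∑ m ∈ range L, 1 / (n : ℝ) ^ 2 * Real.cos (2 * Real.pi * n * (x m + s))‖ ≤
      (E + T) * (1 / (n : ℝ) ^ (3 / 2 : ℝ)) := by
    intro n
    rw [← mul_sum, norm_mul, Real.norm_eq_abs, Real.norm_eq_abs, abs_of_nonneg (by positivity)]
    rcases Nat.eq_zero_or_pos n with rfl | hn
    · simp
    have hn' : (1 : ℝ) ≤ n := by exact_mod_cast hn
    have h1 := (sum_cos_le x L n s).trans (h n hn)
    have h2 : (1 : ℝ) ≤ (n : ℝ) ^ (1 / 2 : ℝ) := Real.one_le_rpow hn' (by norm_num)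
    calc 1 / (n : ℝ) ^ 2 * |∑ i ∈ range L, Real.cos (2 * Real.pi * n * (x i + s))|
        ≤ 1 / (n : ℝ) ^ 2 * ((E + T) * (n : ℝ) ^ (1 / 2 : ℝ)) := by
          gcongr
          refine h1.trans ?_
          nlinarith
      _ = (E + T) * (1 / (n : ℝ) ^ (3 / 2 : ℝ)) := by
          have : (n : ℝ) ^ 2 = (n : ℝ) ^ (3 / 2 : ℝ) * (n : ℝ) ^ (1 / 2 : ℝ) := by
            rw [← Real.rpow_add (by linarith), ← Real.rpow_natCast]; norm_num
          rw [this]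
          have h3 : (n : ℝ) ^ (3 / 2 : ℝ) ≠ 0 := by positivity
          have h4 : (n : ℝ) ^ (1 / 2 : ℝ) ≠ 0 := by positivity
          field_simp
  have h5 : ‖Real.pi ^ 2 * ∑ m ∈ range L, BB (x m + s)‖ ≤ (E + T) * C0 := by
    rw [← hs.tsum_eq]
    refine tsum_of_norm_bounded ?_ hb
    exact (C0_summable.hasSum).mul_left _
  rw [norm_mul, Real.norm_eq_abs, Real.norm_eq_abs, abs_of_nonneg (by positivity)] at h5
  have h6 : (1 : ℝ) ≤ Real.pi ^ 2 := by nlinarith [Real.pi_gt_three]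
  calc |∑ m ∈ range L, BB (x m + s)| ≤ Real.pi ^ 2 * |∑ m ∈ range L, BB (x m + s)| :=
        le_mul_of_one_le_left (abs_nonneg _) h6
    _ ≤ (E + T) * C0 := h5
    _ = _ := mul_comm _ _

lemma saw_sum_le (x : ℕ → ℝ) (L : ℕ) (E T δ : ℝ) (hE : 0 ≤ E) (hδ0 : 0 < δ) (hδ : δ ≤ 1)
    (h : ∀ n : ℕ, 1 ≤ n → ‖∑ m ∈ range L, e (n * x m)‖ ≤ E + T * (n : ℝ) ^ (1 / 2 : ℝ)) :
    |∑ m ∈ range L, saw (x m)| ≤ L * δ + C0 * (E + T) / δ := by
  have hC0 := C0_nonneg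
  have h1 := abs_le.mp (sum_BB_le x L E T δ hE h)
  have h2 := abs_le.mp (sum_BB_le x L E T 0 hE h)
  have h3 := abs_le.mp (sum_BB_le x L E T (-δ) hE h)
  have hL : (0 : ℝ) ≤ L := Nat.cast_nonneg L
  rw [abs_le]
  constructor
  · have h4 : ∑ m ∈ range L, ((BB (x m + δ) - BB (x m + 0)) / (2 * δ) - δ / 2) ≤ ∑ m ∈ range L, saw (x m) :=
      sum_le_sum fun m _ => by rw [add_zero]; exact saw_ge hδ0 hδ
    rw [sum_sub_distrib, ← sum_div, sum_sub_distrib, sum_const, card_range, nsmul_eq_mul] at h4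
    have h5 : -(C0 * (E + T)) * 2 ≤ ∑ m ∈ range L, BB (x m + δ) - ∑ m ∈ range L, BB (x m + 0) := by linarith
    have h6 : -(C0 * (E + T) / δ) ≤ (∑ m ∈ range L, BB (x m + δ) - ∑ m ∈ range L, BB (x m + 0)) / (2 * δ) := by
      rw [le_div_iff₀ (by positivity)]
      refine le_trans (le_of_eq ?_) h5
      field_simp
    nlinarith
  · have h4 : ∑ m ∈ range L, saw (x m) ≤ ∑ m ∈ range L, ((BB (x m + 0) - BB (x m + -δ)) / (2 * δ) + δ / 2) :=
      sum_le_sum fun m _ => by rw [add_zero, ← sub_eq_add_neg]; exact saw_le hδ0 hδ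
    rw [sum_add_distrib, ← sum_div, sum_sub_distrib, sum_const, card_range, nsmul_eq_mul] at h4
    have h5 : ∑ m ∈ range L, BB (x m + 0) - ∑ m ∈ range L, BB (x m + -δ) ≤ (C0 * (E + T)) * 2 := by linarith
    have h6 : (∑ m ∈ range L, BB (x m + 0) - ∑ m ∈ range L, BB (x m + -δ)) / (2 * δ) ≤ C0 * (E + T) / δ := by
      rw [div_le_iff₀ (by positivity)]
      refine le_trans h5 (le_of_eq ?_)
      field_simp
    nlinarith

/-- **Sawtooth sums `∑ ψ(Y/m)`.** -/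
theorem saw_sum_bound (Q : ℕ) (hQ : 1 ≤ Q) (δ : ℝ) (hδ : 0 < δ) :
    ∃ η : ℝ, 0 < η ∧ η ≤ 1 / 4 ∧ ∃ C : ℝ, 0 < C ∧ ∀ (N a L : ℕ) (Y : ℝ), 1 ≤ N → N ≤ a → L ≤ N → a + L ≤ 3 * N →
      (N : ℝ) ^ (1 + δ) ≤ Y → Y ≤ (N : ℝ) ^ Q →
      |∑ n ∈ range L, saw (Y / ((a + n : ℕ) : ℝ))| ≤ C * (N : ℝ) ^ (1 - η) := by
  obtain ⟨η, hη0, hη1, C, hC, H⟩ := exp_sum_bound Q hQ δ hδ
  set η' : ℝ := min η (1 / 2) / 2 with hη'
  have hm0 : 0 < min η (1 / 2) := by positivity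
  have hηη : min η (1 / 2) ≤ η := min_le_left _ _
  have hη2 : min η (1 / 2) ≤ 1 / 2 := min_le_right _ _
  have hC0 := C0_nonneg
  refine ⟨η', by rw [hη']; positivity, by rw [hη']; linarith, 1 + C0 * (C + 1), by positivity, ?_⟩
  intro N a L Y hN ha hL haL hY1 hY2
  have hN' : (1 : ℝ) ≤ N := by exact_mod_cast hN
  have hNpos : (0 : ℝ) < N := by linarith
  have hL' : (L : ℝ) ≤ N := by exact_mod_cast hL
  have hYpos : 0 < Y := lt_of_lt_of_le (by positivity) hY1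
  have key := saw_sum_le (fun n => Y / ((a + n : ℕ) : ℝ)) L (C * (N : ℝ) ^ (1 - η)) ((N : ℝ) ^ (1 / 2 : ℝ))
    ((N : ℝ) ^ (-η')) (by positivity) (by positivity)
    (Real.rpow_le_one_of_one_le_of_nonpos hN' (by rw [hη']; linarith)) (by
      intro n hn
      have hn' : (1 : ℝ) ≤ n := by exact_mod_cast hn
      rcases le_or_gt n N with hnN | hnN
      · have h1 := H N a L (n * Y) hN ha hL haL (hY1.trans (le_mul_of_one_le_left hYpos.le hn')) (by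
          rw [pow_succ, mul_comm]
          gcongr)
        have h2 : ∑ m ∈ range L, e (n * (Y / ((a + m : ℕ) : ℝ))) = ∑ m ∈ range L, e (n * Y / ((a + m : ℕ) : ℝ)) :=
          sum_congr rfl fun m _ => by rw [mul_div_assoc]
        rw [h2]
        refine h1.trans ?_
        have : (0 : ℝ) ≤ (N : ℝ) ^ (1 / 2 : ℝ) * (n : ℝ) ^ (1 / 2 : ℝ) := by positivity
        linarith
      · have h1 : ‖∑ m ∈ range L, e (n * (Y / ((a + m : ℕ) : ℝ)))‖ ≤ L := by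
          refine (norm_sum_le _ _).trans ?_
          simp [norm_e]
        refine h1.trans (hL'.trans ?_)
        have h2 : (N : ℝ) = (N : ℝ) ^ (1 / 2 : ℝ) * (N : ℝ) ^ (1 / 2 : ℝ) := by
          rw [← Real.rpow_add hNpos]; norm_num
        have hnN' : (N : ℝ) ≤ n := by exact_mod_cast hnN.le
        have h3 : (N : ℝ) ^ (1 / 2 : ℝ) ≤ (n : ℝ) ^ (1 / 2 : ℝ) := by
          gcongr
        have h4 : (0 : ℝ) ≤ C * (N : ℝ) ^ (1 - η) := by positivity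
        calc (N : ℝ) = (N : ℝ) ^ (1 / 2 : ℝ) * (N : ℝ) ^ (1 / 2 : ℝ) := h2
          _ ≤ (N : ℝ) ^ (1 / 2 : ℝ) * (n : ℝ) ^ (1 / 2 : ℝ) := by gcongr
          _ ≤ _ := by linarith)
  refine key.trans ?_
  have e1 : (L : ℝ) * (N : ℝ) ^ (-η') ≤ (N : ℝ) ^ (1 - η') := by
    rw [sub_eq_add_neg, Real.rpow_add hNpos, Real.rpow_one]
    gcongr
  have e2 : C * (N : ℝ) ^ (1 - η) + (N : ℝ) ^ (1 / 2 : ℝ) ≤ (C + 1) * ((N : ℝ) ^ (1 - η') * (N : ℝ) ^ (-η')) := by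
    rw [← Real.rpow_add hNpos, add_mul, one_mul]
    have h1 : (N : ℝ) ^ (1 - η) ≤ (N : ℝ) ^ (1 - η' + -η') :=
      Real.rpow_le_rpow_of_exponent_le hN' (by rw [hη']; linarith)
    have h2 : (N : ℝ) ^ (1 / 2 : ℝ) ≤ (N : ℝ) ^ (1 - η' + -η') :=
      Real.rpow_le_rpow_of_exponent_le hN' (by rw [hη']; linarith)
    gcongr
  have e3 : C0 * (C * (N : ℝ) ^ (1 - η) + (N : ℝ) ^ (1 / 2 : ℝ)) / (N : ℝ) ^ (-η') ≤
      C0 * (C + 1) * (N : ℝ) ^ (1 - η') := by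
    rw [div_le_iff₀ (by positivity)]
    calc _ ≤ C0 * ((C + 1) * ((N : ℝ) ^ (1 - η') * (N : ℝ) ^ (-η'))) := by gcongr
      _ = _ := by ring
  calc _ ≤ (N : ℝ) ^ (1 - η') + C0 * (C + 1) * (N : ℝ) ^ (1 - η') := add_le_add e1 e3
    _ = _ := by ring

end Pool.Agent.H469R2.NK
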