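import Pool.Agent.H469R2.NK.Count
import Pool.Agent.Helper601.BT
import Pool.Agent.Helper601.Selberg2

open Finset Nat BoundingSieve
open Pool.Agent.Helper601

namespace Pool.Agent.H469R2.NK

/-- the sieve of an arbitrary finite set -/
noncomputable def setSieve (S : Finset ℕ) (X : ℝ) (R : ℕ) : BoundingSieve where
  support := S
  prodPrimes := PP 1 R
  prodPrimes_squarefree := PP_squarefree 1 R
  weights := fun _ => 1
  weights_nonneg := fun _ => zero_le_one
  totalMass := X
  nu := invAF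
  nu_mult := invAF_mult
  nu_pos_of_prime := by
    intro p hp _
    rw [invAF_apply]
    have : (0 : ℝ) < p := by exact_mod_cast hp.pos
    positivity
  nu_lt_one_of_prime := by
    intro p hp _
    rw [invAF_apply]
    have : (1 : ℝ) < p := by exact_mod_cast hp.one_lt
    exact inv_lt_one_of_one_lt₀ this

lemma setSieve_selS (S : Finset ℕ) (X : ℝ) (R : ℕ) :
    Real.log ((R : ℝ) + 1) / 4 ≤ selS (setSieve S X R) R := by
  have h := selS_ge_log (a := 0) (q := 1) (N := 0) (R := R) (Or.inl rfl)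
  refine h.trans (le_of_eq ?_)
  unfold selS
  refine Finset.sum_congr rfl fun l _ => ?_
  rw [selbergTerms_apply, selbergTerms_apply]
  rfl

lemma setSieve_rem (S : Finset ℕ) (X : ℝ) (R d : ℕ) :
    (setSieve S X R).rem d = ((S.filter (fun m => d ∣ m)).card : ℝ) - X / d := by
  simp only [BoundingSieve.rem, BoundingSieve.multSum, setSieve]
  rw [← Finset.sum_filter, Finset.sum_const, nsmul_eq_mul, mul_one, invAF_apply]
  ring

theorem sieve_set (S : Finset ℕ) (X : ℝ) (hX : 0 ≤ X) (R : ℕ) (hR : 1 ≤ R) (E : ℝ) (hE : 0 ≤ E)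
    (hrem : ∀ d : ℕ, 1 ≤ d → d ≤ R ^ 2 → |((S.filter (fun m => d ∣ m)).card : ℝ) - X / d| ≤ E)
    (P : Finset ℕ) (hPS : P ⊆ S) (hP : ∀ p ∈ P, p.Prime ∧ R < p) :
    (P.card : ℝ) ≤ 4 * X / Real.log ((R : ℝ) + 1) + E * (R : ℝ) ^ 4 := by
  classical
  have hR' : (1 : ℝ) ≤ R := by exact_mod_cast hR
  have h1 : (P.card : ℝ) ≤ (setSieve S X R).siftedSum := by
    unfold BoundingSieve.siftedSum
    have h0 : (setSieve S X R).support = S := rfl
    rw [h0]
    have h2 : ∑ d ∈ P, (1 : ℝ) ≤ ∑ d ∈ S, if Coprime (setSieve S X R).prodPrimes d then (setSieve S X R).weights d else 0 := by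
      have h3 : ∑ d ∈ P, (1 : ℝ) = ∑ d ∈ P, if Coprime (setSieve S X R).prodPrimes d then (setSieve S X R).weights d else 0 := by
        refine Finset.sum_congr rfl fun p hp => ?_
        rw [if_pos]
        · rfl
        · change Coprime (PP 1 R) p
          rw [Nat.coprime_comm, (hP p hp).1.coprime_iff_not_dvd, prime_dvd_PP (hP p hp).1]
          have := (hP p hp).2
          omega
      rw [h3]
      apply Finset.sum_le_sum_of_subset_of_nonneg hPS
      intro d _ _
      split_ifs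
      · exact zero_le_one
      · exact le_rfl
    simpa using h2
  have h2 := siftedSum_le_selberg' (setSieve S X R) (R : ℝ) hR' E hE (by
    intro d hd hdR
    rw [setSieve_rem]
    refine hrem d (Nat.pos_of_ne_zero (ne_zero_of_dvd_ne_zero (PP_squarefree 1 R).ne_zero hd)) ?_
    exact_mod_cast hdR)
  have h3 := setSieve_selS S X R
  have hlog : 0 < Real.log ((R : ℝ) + 1) := Real.log_pos (by linarith)
  have h4 : (setSieve S X R).totalMass / selS (setSieve S X R) R ≤ 4 * X / Real.log ((R : ℝ) + 1) := by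
    change X / _ ≤ _
    have : X / selS (setSieve S X R) R ≤ X / (Real.log ((R : ℝ) + 1) / 4) := by
      apply div_le_div_of_nonneg_left hX (by positivity) h3
    refine this.trans (le_of_eq ?_)
    field_simp
  have h5 : (∑ d ∈ (divisors (setSieve S X R).prodPrimes).filter (fun d : ℕ => (d : ℝ) ≤ R),
      ((setSieve S X R).nu d)⁻¹) ≤ (R : ℝ) ^ 2 := by
    have h6 : (divisors (setSieve S X R).prodPrimes).filter (fun d : ℕ => (d : ℝ) ≤ R) ⊆
        Finset.Icc 1 R := by
      intro d hd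
      rw [Finset.mem_filter, Nat.mem_divisors] at hd
      rw [Finset.mem_Icc]
      refine ⟨Nat.pos_of_ne_zero (ne_zero_of_dvd_ne_zero hd.1.2 hd.1.1), by exact_mod_cast hd.2⟩
    calc (∑ d ∈ (divisors (setSieve S X R).prodPrimes).filter (fun d : ℕ => (d : ℝ) ≤ R),
          ((setSieve S X R).nu d)⁻¹)
        = ∑ d ∈ (divisors (setSieve S X R).prodPrimes).filter (fun d : ℕ => (d : ℝ) ≤ R),
          (d : ℝ) := by
          apply Finset.sum_congr rfl
          intro d _
          change ((d : ℝ)⁻¹)⁻¹ = d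
          rw [inv_inv]
      _ ≤ ∑ d ∈ Finset.Icc 1 R, (d : ℝ) :=
          Finset.sum_le_sum_of_subset_of_nonneg h6 (fun _ _ _ => by positivity)
      _ ≤ ∑ d ∈ Finset.Icc 1 R, (R : ℝ) := by
          apply Finset.sum_le_sum
          intro d hd
          exact_mod_cast (Finset.mem_Icc.mp hd).2
      _ = (R : ℝ) ^ 2 := by simp; ring
  have h7 : 0 ≤ (∑ d ∈ (divisors (setSieve S X R).prodPrimes).filter (fun d : ℕ => (d : ℝ) ≤ R),
      ((setSieve S X R).nu d)⁻¹) := by
    apply Finset.sum_nonneg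
    intro d _
    change 0 ≤ ((d : ℝ)⁻¹)⁻¹
    positivity
  have h8 : (∑ d ∈ (divisors (setSieve S X R).prodPrimes).filter (fun d : ℕ => (d : ℝ) ≤ R),
      ((setSieve S X R).nu d)⁻¹) ^ 2 ≤ (R : ℝ) ^ 4 := by
    calc _ ≤ ((R : ℝ) ^ 2) ^ 2 := by gcongr
      _ = (R : ℝ) ^ 4 := by ring
  have h9 : E * (∑ d ∈ (divisors (setSieve S X R).prodPrimes).filter (fun d : ℕ => (d : ℝ) ≤ R),
      ((setSieve S X R).nu d)⁻¹) ^ 2 ≤ E * (R : ℝ) ^ 4 := by gcongr
  linarith

end Pool.Agent.H469R2.NK
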